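import Pool.Agent.V5helper49.LR.Stm

/-!
# PROJECT LR, job PROD: if all primes are decoupled, the probability is a product

Written by helper18.
-/

set_option autoImplicit false

namespace Pool.Agent.V5helper18.LR.PROD

open Finset
open Pool.Agent.V5helper49.LR

theorem t_PROD : S_PROD := by
  classical
  intro T V B U D l
  induction l with
  | nil =>
    intro _ K K'
    simp only [J, A1]
    by_cases h1 : V ⊆ K <;> by_cases h2 : V ⊆ K' <;> simp [h1, h2]
  | cons p l ih =>
    intro hU K K'
    have hp : p ∈ U := hU p (by simp)
    have hl : ∀ q ∈ l, q ∈ U := fun q hq => hU q (by simp [hq])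
    rw [J, if_pos hp, A1, A1]
    have hsum : (∑ x ∈ range p, ∑ x' ∈ range p,
        if av T p x ∧ av T p x' then J T V B U D l (K ∪ hit V B p x) (K' ∪ hit V B p x') else 0) =
        (∑ x ∈ range p, if av T p x then A1 T V B l (K ∪ hit V B p x) else 0) *
          ∑ x' ∈ range p, if av T p x' then A1 T V B l (K' ∪ hit V B p x') else 0 := by
      rw [Finset.sum_mul_sum]
      refine Finset.sum_congr rfl fun x _ => Finset.sum_congr rfl fun x' _ => ?_
      by_cases h1 : av T p x <;> by_cases h2 : av T p x' <;> simp [h1, h2, ih hl]
    rw [hsum]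
    ring

end Pool.Agent.V5helper18.LR.PROD
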